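import Mathlib

/-!
# MP_205740_an: Chebyshev-type quadrature node counts under bounded multiplicative perturbations

For all `0 < m < M` the ratio `N_{hW}(2) / N_W(2)` is unbounded over all weights `W` and all
perturbations `h` with `m < h < M`.
-/

open MeasureTheory
open scoped Real ENNReal

namespace Pool.Agent.Results.MP_205740_an.UnboundedRatio

/-- A `2π`-periodic weight function. -/
structure IsWeight (W : ℝ → ℝ) : Prop where
  measurable : Measurable W
  periodic : Function.Periodic W (2 * π)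
  nonneg : ∀ θ, 0 ≤ W θ
  integrable : IntervalIntegrable W volume (-π) π
  pos : 0 < ∫ θ in (-π)..π, W θ

/-- The real trigonometric polynomials of degree at most `n`. -/
def trigPoly (n : ℕ) : Set (ℝ → ℝ) :=
  {p | ∃ a b : ℕ → ℝ, ∀ θ, p θ =
    ∑ k ∈ Finset.range (n + 1), (a k * Real.cos (k * θ) + b k * Real.sin (k * θ))}

/-- There is a Chebyshev-type trigonometric quadrature of degree `n` for `W` with `N` nodes. -/
def HasQuadrature (W : ℝ → ℝ) (n N : ℕ) : Prop :=
  ∃ (x : Fin N → ℝ) (l : ℝ), Monotone x ∧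
    ∀ p ∈ trigPoly n, ∫ θ in (-π)..π, p θ * W θ = l * ∑ i, p (x i)

/-- `N_W(n)`, the least number of nodes, as an extended natural number. -/
noncomputable def minNodes (W : ℝ → ℝ) (n : ℕ) : ℕ∞ :=
  ⨅ (N : ℕ) (_ : HasQuadrature W n N), (N : ℕ∞)

/-- the integrals `∫_{-π/2}^{π/2} cos^k` -/
noncomputable def J (k : ℕ) : ℝ := ∫ θ in (-(π / 2))..(π / 2), Real.cos θ ^ k

lemma J_nonneg_pow (k : ℕ) {θ : ℝ} (h : θ ∈ Set.Icc (-(π / 2)) (π / 2)) : 0 ≤ Real.cos θ ^ k :=
  pow_nonneg (Real.cos_nonneg_of_mem_Icc h) k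

lemma J_anti (k : ℕ) : J (k + 1) ≤ J k := by
  unfold J
  refine intervalIntegral.integral_mono_on (by linarith [Real.pi_pos])
    (Continuous.intervalIntegrable (by fun_prop) _ _)
    (Continuous.intervalIntegrable (by fun_prop) _ _) fun θ hθ => ?_
  rw [pow_succ]
  exact mul_le_of_le_one_right (J_nonneg_pow k hθ) (Real.cos_le_one θ)

lemma J_step (k : ℕ) : J (k + 2) = (k + 1) / (k + 2) * J k := by
  unfold J
  rw [integral_cos_pow]
  simp

lemma J_zero : J 0 = π := by
  unfold J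
  simp

lemma J_even_pos (q : ℕ) : 0 < J (2 * q) := by
  induction q with
  | zero => rw [mul_zero, J_zero]; exact Real.pi_pos
  | succ q ih =>
    rw [show 2 * (q + 1) = 2 * q + 2 by ring, J_step]
    positivity

/-- The weight `cos^{2q}`. -/
noncomputable def Wq (q : ℕ) (θ : ℝ) : ℝ := Real.cos θ ^ (2 * q)

/-- The perturbation: `h₁` where `cos > 0`, and `h₂` elsewhere. -/
noncomputable def hp (h₁ h₂ : ℝ) (θ : ℝ) : ℝ := open Classical in if 0 < Real.cos θ then h₁ else h₂

lemma hp_periodic (h₁ h₂ : ℝ) : Function.Periodic (hp h₁ h₂) (2 * π) := by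
  intro θ
  unfold hp
  rw [Real.cos_add_two_pi]

lemma hp_measurable (h₁ h₂ : ℝ) : Measurable (hp h₁ h₂) := by
  classical
  unfold hp
  refine Measurable.ite (measurableSet_lt measurable_const Real.measurable_cos)
    measurable_const measurable_const

lemma Wq_periodic (q : ℕ) : Function.Periodic (Wq q) (2 * π) := by
  intro θ
  unfold Wq
  rw [Real.cos_add_two_pi]

lemma Wq_nonneg (q : ℕ) (θ : ℝ) : 0 ≤ Wq q θ := by
  unfold Wq
  rw [pow_mul]
  positivity

lemma Wq_continuous (q : ℕ) : Continuous (Wq q) := by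
  unfold Wq
  fun_prop

/-- The integral of `g(cos θ) h(θ) W(θ)` over a period. -/
lemma integral_split (h₁ h₂ : ℝ) (q k : ℕ) :
    ∫ θ in (-π)..π, Real.cos θ ^ k * (hp h₁ h₂ θ * Wq q θ) =
      (h₁ + (-1) ^ k * h₂) * J (2 * q + k) := by
  have hper : Function.Periodic (fun θ => Real.cos θ ^ k * (hp h₁ h₂ θ * Wq q θ)) (2 * π) := by
    intro θ
    show Real.cos (θ + 2 * π) ^ k * (hp h₁ h₂ (θ + 2 * π) * Wq q (θ + 2 * π)) = _
    rw [hp_periodic, Wq_periodic, Real.cos_add_two_pi]
  have h1 := hper.intervalIntegral_add_eq (-π) (-(π / 2))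
  rw [show -π + 2 * π = π by ring] at h1
  have e1 : ∀ θ ∈ Set.Ioo (-(π / 2)) (π / 2), Real.cos θ ^ k * (hp h₁ h₂ θ * Wq q θ) =
      h₁ * Real.cos θ ^ (2 * q + k) := by
    intro θ hθ
    unfold hp Wq
    rw [if_pos (Real.cos_pos_of_mem_Ioo hθ), pow_add]
    ring
  have e2 : ∀ θ ∈ Set.Ioo (π / 2) (-(π / 2) + 2 * π), Real.cos θ ^ k * (hp h₁ h₂ θ * Wq q θ) =
      h₂ * Real.cos θ ^ (2 * q + k) := by
    intro θ hθ
    unfold hp Wq
    have : Real.cos θ < 0 := Real.cos_neg_of_pi_div_two_lt_of_lt hθ.1 (by linarith [hθ.2])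
    rw [if_neg (not_lt.mpr this.le), pow_add]
    ring
  have i1 : ∫ θ in (-(π / 2))..(π / 2), Real.cos θ ^ k * (hp h₁ h₂ θ * Wq q θ) =
      h₁ * J (2 * q + k) := by
    unfold J
    rw [← intervalIntegral.integral_const_mul]
    rw [intervalIntegral.integral_of_le (by linarith [Real.pi_pos]),
      intervalIntegral.integral_of_le (by linarith [Real.pi_pos]),
      integral_Ioc_eq_integral_Ioo, integral_Ioc_eq_integral_Ioo]
    exact setIntegral_congr_fun measurableSet_Ioo e1
  have i2 : ∫ θ in (π / 2)..(-(π / 2) + 2 * π), Real.cos θ ^ k * (hp h₁ h₂ θ * Wq q θ) =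
      (-1) ^ k * h₂ * J (2 * q + k) := by
    have h3 : ∫ θ in (π / 2)..(-(π / 2) + 2 * π), Real.cos θ ^ k * (hp h₁ h₂ θ * Wq q θ) =
        ∫ θ in (π / 2)..(-(π / 2) + 2 * π), h₂ * Real.cos θ ^ (2 * q + k) := by
      rw [intervalIntegral.integral_of_le (by linarith [Real.pi_pos]),
        intervalIntegral.integral_of_le (by linarith [Real.pi_pos]),
        integral_Ioc_eq_integral_Ioo, integral_Ioc_eq_integral_Ioo]
      exact setIntegral_congr_fun measurableSet_Ioo e2
    rw [h3]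
    have h4 : ∫ θ in (π / 2)..(-(π / 2) + 2 * π), h₂ * Real.cos θ ^ (2 * q + k) =
        ∫ θ in (-(π / 2))..(π / 2), h₂ * Real.cos (θ + π) ^ (2 * q + k) := by
      rw [intervalIntegral.integral_comp_add_right (fun θ => h₂ * Real.cos θ ^ (2 * q + k))]
      congr 1 <;> ring
    rw [h4]
    unfold J
    rw [← intervalIntegral.integral_const_mul]
    congr 1
    funext θ
    rw [Real.cos_add_pi, neg_pow, pow_add, pow_mul]
    norm_num
    ring
  have hint : ∀ a b : ℝ, IntervalIntegrable (fun θ => Real.cos θ ^ k * (hp h₁ h₂ θ * Wq q θ))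
      volume a b := by
    intro a b
    refine (intervalIntegrable_const (c := max |h₁| |h₂|)).mono_fun ?_ ?_
    · refine Measurable.aestronglyMeasurable ?_
      exact (Real.measurable_cos.pow_const k).mul
        ((hp_measurable h₁ h₂).mul (Wq_continuous q).measurable)
    · refine Filter.Eventually.of_forall fun θ => ?_
      show ‖Real.cos θ ^ k * (hp h₁ h₂ θ * Wq q θ)‖ ≤ ‖max |h₁| |h₂|‖
      rw [norm_mul, norm_mul, norm_pow, Real.norm_eq_abs, Real.norm_eq_abs, Real.norm_eq_abs,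
        Real.norm_eq_abs]
      have a1 : |Real.cos θ| ^ k ≤ 1 := pow_le_one₀ (abs_nonneg _) (Real.abs_cos_le_one θ)
      have a2 : |Wq q θ| ≤ 1 := by
        unfold Wq
        rw [abs_pow]
        exact pow_le_one₀ (abs_nonneg _) (Real.abs_cos_le_one θ)
      have a3 : |hp h₁ h₂ θ| ≤ max |h₁| |h₂| := by
        unfold hp
        split_ifs
        · exact le_max_left _ _
        · exact le_max_right _ _
      have a4 : 0 ≤ max |h₁| |h₂| := (abs_nonneg _).trans (le_max_left _ _)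
      rw [abs_of_nonneg a4]
      calc |Real.cos θ| ^ k * (|hp h₁ h₂ θ| * |Wq q θ|)
          ≤ 1 * (max |h₁| |h₂| * 1) := by gcongr
        _ = _ := by ring
  rw [h1, ← intervalIntegral.integral_add_adjacent_intervals (hint _ (π / 2)) (hint _ _), i1, i2]
  ring

lemma hp_one (θ : ℝ) : hp 1 1 θ = 1 := by
  unfold hp
  split_ifs <;> rfl

lemma integral_cos_pow_W (q k : ℕ) :
    ∫ θ in (-π)..π, Real.cos θ ^ k * Wq q θ = (1 + (-1) ^ k) * J (2 * q + k) := by
  have h := integral_split 1 1 q k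
  simp only [hp_one, one_mul, mul_one] at h
  exact h

lemma integral_odd (g : ℝ → ℝ) (hg : ∀ θ, g (-θ) = -g θ) : ∫ θ in (-π)..π, g θ = 0 := by
  have h1 : ∫ θ in (-π)..π, g (-θ) = ∫ θ in (-π)..π, g θ := by
    rw [intervalIntegral.integral_comp_neg]
    simp
  simp only [hg] at h1
  rw [intervalIntegral.integral_neg] at h1
  linarith

lemma trig_two {p : ℝ → ℝ} (hp : p ∈ trigPoly 2) : ∃ a₀ a₁ b₁ a₂ b₂ : ℝ, ∀ θ, p θ =
    a₀ + a₁ * Real.cos θ + b₁ * Real.sin θ + a₂ * Real.cos (2 * θ) + b₂ * Real.sin (2 * θ) := by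
  obtain ⟨a, b, h⟩ := hp
  refine ⟨a 0, a 1, b 1, a 2, b 2, fun θ => ?_⟩
  rw [h θ, Finset.sum_range_succ, Finset.sum_range_succ, Finset.sum_range_succ,
    Finset.sum_range_zero]
  simp
  ring

lemma mem_trig_two (a₀ a₁ a₂ : ℝ) :
    (fun θ => a₀ + a₁ * Real.cos θ + a₂ * Real.cos (2 * θ)) ∈ trigPoly 2 := by
  refine ⟨fun k => if k = 0 then a₀ else if k = 1 then a₁ else a₂, fun _ => 0, fun θ => ?_⟩
  rw [Finset.sum_range_succ, Finset.sum_range_succ, Finset.sum_range_succ,
    Finset.sum_range_zero]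
  simp

/-- `N_W(2) ≤ 4` for `W = cos^{2q}`. -/
lemma quadrature_W (q : ℕ) : HasQuadrature (Wq q) 2 4 := by
  have hπ := Real.pi_pos
  set c : ℝ := (q : ℝ) / (q + 1) with hc
  have hc0 : 0 ≤ c := by positivity
  have hc1 : c ≤ 1 := by
    rw [hc, div_le_one (by positivity)]
    linarith
  set α : ℝ := Real.arccos c / 2 with hα
  have hα0 : 0 ≤ α := by
    have := Real.arccos_nonneg c
    positivity
  have hα1 : α ≤ π / 4 := by
    have := Real.arccos_le_pi_div_two.mpr hc0
    rw [hα]; linarith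
  have hcos : Real.cos (2 * α) = c := by
    rw [hα, mul_div_cancel₀ _ (two_ne_zero)]
    exact Real.cos_arccos (by linarith) hc1
  refine ⟨![α - π, -α, α, π - α], J (2 * q) / 2, ?_, ?_⟩
  · refine Fin.monotone_iff_le_succ.mpr fun i => ?_
    fin_cases i
    · show α - π ≤ -α
      linarith
    · show -α ≤ α
      linarith
    · show α ≤ π - α
      linarith
  · intro p hp
    obtain ⟨a₀, a₁, b₁, a₂, b₂, h⟩ := trig_two hp
    have hint : ∀ g : ℝ → ℝ, Continuous g → IntervalIntegrable g volume (-π) π :=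
      fun g hg => hg.intervalIntegrable _ _
    have hWc := Wq_continuous q
    have hL : ∫ θ in (-π)..π, p θ * Wq q θ = 2 * J (2 * q) * (a₀ + a₂ * c) := by
      have e : ∀ θ, p θ * Wq q θ = ((a₀ - a₂) * (Real.cos θ ^ 0 * Wq q θ) +
          a₁ * (Real.cos θ ^ 1 * Wq q θ) + 2 * a₂ * (Real.cos θ ^ 2 * Wq q θ)) +
          (b₁ * Real.sin θ + b₂ * Real.sin (2 * θ)) * Wq q θ := by
        intro θ
        rw [h θ, Real.cos_two_mul]
        ring
      simp only [e]
      rw [intervalIntegral.integral_add (hint _ (by fun_prop)) (hint _ (by fun_prop)),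
        intervalIntegral.integral_add (hint _ (by fun_prop)) (hint _ (by fun_prop)),
        intervalIntegral.integral_add (hint _ (by fun_prop)) (hint _ (by fun_prop)),
        intervalIntegral.integral_const_mul, intervalIntegral.integral_const_mul,
        intervalIntegral.integral_const_mul, integral_cos_pow_W, integral_cos_pow_W,
        integral_cos_pow_W, integral_odd, J_step]
      · have hq : (q : ℝ) + 1 ≠ 0 := by positivity
        rw [hc]
        push_cast
        field_simp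
        ring_nf
      · intro θ
        unfold Wq
        rw [show 2 * -θ = -(2 * θ) by ring, Real.sin_neg, Real.sin_neg, Real.cos_neg]
        ring
    rw [hL, Fin.sum_univ_four]
    show 2 * J (2 * q) * (a₀ + a₂ * c) = J (2 * q) / 2 * (p (α - π) + p (-α) + p α + p (π - α))
    rw [h, h, h, h]
    have s1 : Real.cos (α - π) = -Real.cos α := by rw [Real.cos_sub_pi]
    have s2 : Real.sin (α - π) = -Real.sin α := by rw [Real.sin_sub_pi]
    have s3 : Real.cos (2 * (α - π)) = c := by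
      rw [mul_sub, Real.cos_sub_two_pi, hcos]
    have s4 : Real.sin (2 * (α - π)) = Real.sin (2 * α) := by
      rw [mul_sub, Real.sin_sub_two_pi]
    have s5 : Real.cos (2 * -α) = c := by rw [mul_neg, Real.cos_neg, hcos]
    have s6 : Real.sin (2 * -α) = -Real.sin (2 * α) := by rw [mul_neg, Real.sin_neg]
    have s7 : Real.cos (π - α) = -Real.cos α := Real.cos_pi_sub α
    have s8 : Real.sin (π - α) = Real.sin α := Real.sin_pi_sub α
    have s9 : Real.cos (2 * (π - α)) = c := by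
      rw [mul_sub, Real.cos_two_pi_sub, hcos]
    have s10 : Real.sin (2 * (π - α)) = -Real.sin (2 * α) := by
      rw [mul_sub, Real.sin_two_pi_sub]
    rw [s1, s2, s3, s4, s5, s6, s7, s8, s9, s10, Real.cos_neg, Real.sin_neg, hcos]
    ring

/-- A quadrature of degree `2` with `N` nodes for `hW` gives a rational approximation, with
denominator `N`, of `(h₁ - h₂) / (h₁ + h₂)`. -/
lemma quadrature_hW {h₁ h₂ : ℝ} (hh1 : 0 < h₁) (hh2 : 0 < h₂) (q N : ℕ)
    (h : HasQuadrature (fun θ => hp h₁ h₂ θ * Wq q θ) 2 N) :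
    1 ≤ N ∧ ∃ z : ℤ, |N * ((h₁ - h₂) / (h₁ + h₂)) - z| ≤ N / (q + 1) := by
  obtain ⟨x, l, -, hx⟩ := h
  have hJ := J_even_pos q
  have hJ2 : J (2 * q + 2) = (2 * q + 1) / (2 * q + 2) * J (2 * q) := by
    rw [J_step]
    push_cast
    ring
  have e0 := hx _ (mem_trig_two 1 0 0)
  have e1 := hx _ (mem_trig_two 0 1 0)
  have e2 := hx _ (mem_trig_two (1 / 2) 0 (1 / 2))
  have f0 : ∫ θ in (-π)..π, (1 + 0 * Real.cos θ + 0 * Real.cos (2 * θ)) *
      (hp h₁ h₂ θ * Wq q θ) = (h₁ + h₂) * J (2 * q) := by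
    have := integral_split h₁ h₂ q 0
    simp only [pow_zero, one_mul, add_zero] at this
    rw [← this]
    congr 1
    funext θ
    ring
  have f1 : ∫ θ in (-π)..π, (0 + 1 * Real.cos θ + 0 * Real.cos (2 * θ)) *
      (hp h₁ h₂ θ * Wq q θ) = (h₁ - h₂) * J (2 * q + 1) := by
    have := integral_split h₁ h₂ q 1
    simp only [pow_one, neg_mul, one_mul, ← sub_eq_add_neg] at this
    rw [← this]
    congr 1
    funext θ
    ring
  have f2 : ∫ θ in (-π)..π, (1 / 2 + 0 * Real.cos θ + 1 / 2 * Real.cos (2 * θ)) *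
      (hp h₁ h₂ θ * Wq q θ) = (h₁ + h₂) * J (2 * q + 2) := by
    have := integral_split h₁ h₂ q 2
    rw [neg_one_sq, one_mul] at this
    rw [← this]
    congr 1
    funext θ
    rw [Real.cos_two_mul]
    ring
  rw [f0] at e0
  rw [f1] at e1
  rw [f2] at e2
  have g0 : ∑ i : Fin N, (1 + 0 * Real.cos (x i) + 0 * Real.cos (2 * x i)) = N := by simp
  have g1 : ∑ i : Fin N, (0 + 1 * Real.cos (x i) + 0 * Real.cos (2 * x i)) =
      ∑ i : Fin N, Real.cos (x i) := by
    refine Finset.sum_congr rfl fun i _ => by ring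
  have g2 : ∑ i : Fin N, (1 / 2 + 0 * Real.cos (x i) + 1 / 2 * Real.cos (2 * x i)) =
      ∑ i : Fin N, Real.cos (x i) ^ 2 := by
    refine Finset.sum_congr rfl fun i _ => ?_
    rw [Real.cos_two_mul]
    ring
  rw [g0] at e0
  rw [g1] at e1
  rw [g2] at e2
  set S := h₁ + h₂ with hS
  have hS0 : 0 < S := by positivity
  have hN : 1 ≤ N := by
    rcases Nat.eq_zero_or_pos N with h | h
    · rw [h] at e0
      simp only [Nat.cast_zero, mul_zero] at e0
      have := mul_pos hS0 hJ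
      linarith
    · exact h
  refine ⟨hN, ?_⟩
  have hN0 : (0 : ℝ) < N := by exact_mod_cast hN
  have hl : l = S * J (2 * q) / N := by
    rw [eq_div_iff hN0.ne']
    exact e0.symm
  set γ := (h₁ - h₂) / S with hγ
  have hγ1 : |γ| ≤ 1 := by
    rw [hγ, abs_div, abs_of_pos hS0, div_le_one hS0, abs_le]
    constructor <;> linarith
  set R := J (2 * q + 1) / J (2 * q) with hR
  have hR1 : R ≤ 1 := by
    rw [hR, div_le_one hJ]
    exact J_anti _
  have hR2 : 1 - 1 / (2 * q + 2 : ℝ) ≤ R := by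
    rw [hR, le_div_iff₀ hJ]
    have := J_anti (2 * q + 1)
    rw [show 2 * q + 1 + 1 = 2 * q + 2 by ring, hJ2] at this
    refine le_trans (le_of_eq ?_) this
    have : (2 * q + 2 : ℝ) ≠ 0 := by positivity
    field_simp
    ring
  -- the averages
  have a1 : ∑ i : Fin N, Real.cos (x i) = N * (γ * R) := by
    have h1 : (h₁ - h₂) = γ * S := by rw [hγ]; field_simp
    have h2 : J (2 * q + 1) = R * J (2 * q) := by rw [hR]; field_simp
    rw [h1, h2, hl] at e1
    have h3 : S * J (2 * q) * (∑ i : Fin N, Real.cos (x i)) = S * J (2 * q) * (N * (γ * R)) := by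
      have h4 : γ * S * (R * J (2 * q)) * N = S * J (2 * q) * ∑ i : Fin N, Real.cos (x i) := by
        rw [e1]
        field_simp
      rw [← h4]
      ring
    exact mul_left_cancel₀ (mul_pos hS0 hJ).ne' h3
  have a2 : ∑ i : Fin N, (1 - Real.cos (x i) ^ 2) = (N : ℝ) / (2 * q + 2) := by
    rw [Finset.sum_sub_distrib]
    simp only [Finset.sum_const, Finset.card_univ, Fintype.card_fin, nsmul_eq_mul, mul_one]
    have h3 : S * J (2 * q) * (∑ i : Fin N, Real.cos (x i) ^ 2) =
        S * J (2 * q) * (N * ((2 * q + 1) / (2 * q + 2))) := by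
      rw [hJ2, hl] at e2
      have h4 : S * ((2 * q + 1) / (2 * q + 2) * J (2 * q)) * N =
          S * J (2 * q) * ∑ i : Fin N, Real.cos (x i) ^ 2 := by
        rw [e2]
        field_simp
      rw [← h4]
      ring
    rw [mul_left_cancel₀ (mul_pos hS0 hJ).ne' h3]
    have : (2 * q + 2 : ℝ) ≠ 0 := by positivity
    field_simp
    ring
  -- the signs
  set σ : Fin N → ℤ := fun i => if 0 ≤ Real.cos (x i) then 1 else -1 with hσ
  have hσ1 : ∀ i, |Real.cos (x i) - σ i| ≤ 1 - Real.cos (x i) ^ 2 := by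
    intro i
    have c1 := Real.cos_le_one (x i)
    have c2 := Real.neg_one_le_cos (x i)
    simp only [hσ]
    split_ifs with h
    · push_cast
      rw [abs_le]
      constructor <;> nlinarith
    · push Not at h
      push_cast
      rw [abs_le]
      constructor <;> nlinarith
  refine ⟨∑ i, σ i, ?_⟩
  have b1 : |∑ i : Fin N, Real.cos (x i) - ∑ i, (σ i : ℝ)| ≤ N / (2 * q + 2) := by
    rw [← Finset.sum_sub_distrib, ← a2]
    exact (Finset.abs_sum_le_sum_abs _ _).trans (Finset.sum_le_sum fun i _ => hσ1 i)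
  have b2 : |N * γ - ∑ i : Fin N, Real.cos (x i)| ≤ N / (2 * q + 2) := by
    rw [a1]
    have : (N : ℝ) * γ - N * (γ * R) = N * (γ * (1 - R)) := by ring
    rw [this, abs_mul, abs_mul, abs_of_pos hN0, abs_of_nonneg (by linarith : 0 ≤ 1 - R)]
    have h3 : |γ| * (1 - R) ≤ 1 * (1 / (2 * q + 2 : ℝ)) :=
      mul_le_mul hγ1 (by linarith) (by linarith) zero_le_one
    calc (N : ℝ) * (|γ| * (1 - R)) ≤ N * (1 * (1 / (2 * q + 2 : ℝ))) :=
          mul_le_mul_of_nonneg_left h3 hN0.le
      _ = _ := by ring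
  push_cast
  calc |N * γ - ∑ i, (σ i : ℝ)|
      = |(N * γ - ∑ i : Fin N, Real.cos (x i)) + (∑ i : Fin N, Real.cos (x i) - ∑ i, (σ i : ℝ))| := by
        congr 1; ring
    _ ≤ _ := abs_add_le _ _
    _ ≤ N / (2 * q + 2) + N / (2 * q + 2) := add_le_add b2 b1
    _ = N / (q + 1) := by
        have : (q + 1 : ℝ) ≠ 0 := by positivity
        field_simp
        ring

lemma exists_dist {γ : ℝ} (hγ : Irrational γ) (C : ℕ) : ∃ d : ℝ, 0 < d ∧ ∀ N : ℕ, 1 ≤ N → N ≤ C →
    ∀ z : ℤ, d ≤ |N * γ - z| := by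
  induction C with
  | zero =>
    refine ⟨1, one_pos, fun N h1 h2 => ?_⟩
    omega
  | succ C ih =>
    obtain ⟨d, hd, h⟩ := ih
    have hirr : Irrational (((C + 1 : ℕ) : ℝ) * γ) := by
      exact hγ.natCast_mul (Nat.succ_ne_zero C)
    have hpos : 0 < |((C + 1 : ℕ) : ℝ) * γ - round (((C + 1 : ℕ) : ℝ) * γ)| := by
      rw [abs_pos, sub_ne_zero]
      exact hirr.ne_int _
    refine ⟨min d |((C + 1 : ℕ) : ℝ) * γ - round (((C + 1 : ℕ) : ℝ) * γ)|, lt_min hd hpos, ?_⟩
    intro N h1 h2 z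
    rcases Nat.lt_or_ge N (C + 1) with h3 | h3
    · exact (min_le_left _ _).trans (h N h1 (by omega) z)
    · have : N = C + 1 := by omega
      subst this
      exact (min_le_right _ _).trans (round_le _ z)

lemma exists_values {m M : ℝ} (hm : 0 < m) (hM : m < M) : ∃ h₁ h₂ : ℝ, m < h₁ ∧ h₁ < M ∧ m < h₂ ∧
    h₂ < M ∧ Irrational ((h₁ - h₂) / (h₁ + h₂)) := by
  set a := (m + M) / 2 with ha
  have ha0 : 0 < a := by rw [ha]; linarith
  have ham : m < a := by rw [ha]; linarith
  have haM : a < M := by rw [ha]; linarith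
  obtain ⟨r, hr, hr1, hr2⟩ := exists_irrational_btwn (show (1 : ℝ) < M / a by
    rw [lt_div_iff₀ ha0]; linarith)
  rw [lt_div_iff₀ ha0] at hr2
  refine ⟨r * a, a, by nlinarith, hr2, ham, haM, ?_⟩
  have h1 : (r * a - a) / (r * a + a) = (r - 1) / (r + 1) := by
    have : r + 1 ≠ 0 := by linarith
    field_simp
  rw [h1]
  rintro ⟨q, hq⟩
  refine hr ⟨(1 + q) / (1 - q), ?_⟩
  have h2 : (q : ℝ) * (r + 1) = r - 1 := by
    rw [hq]
    have : r + 1 ≠ 0 := by linarith
    field_simp
  have h3 : (1 : ℝ) - q ≠ 0 := by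
    intro h
    have : (q : ℝ) = 1 := by linarith
    rw [this] at h2
    linarith
  push_cast
  rw [div_eq_iff h3]
  linarith

/-- **Q1 of MP_205740_an is disproved, for every `0 < m < M`.** For every `C` there are a weight
`W` and a perturbation `h` with `m < h < M` such that `N_W(2) ≤ 4` and `N_{hW}(2) > C`; so the ratio
`N_{hW}(n) / N_W(n)` is unbounded (already for `n = 2`). -/
theorem result (m M : ℝ) (hm : 0 < m) (hM : m < M) (C : ℕ) :
    ∃ W h : ℝ → ℝ, IsWeight W ∧ Measurable h ∧ Function.Periodic h (2 * π) ∧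
      (∀ θ, m < h θ ∧ h θ < M) ∧ minNodes W 2 ≤ 4 ∧
      (C : ℕ∞) < minNodes (fun θ => h θ * W θ) 2 := by
  obtain ⟨h₁, h₂, a1, a2, a3, a4, hirr⟩ := exists_values hm hM
  have hh1 : 0 < h₁ := hm.trans a1
  have hh2 : 0 < h₂ := hm.trans a3
  obtain ⟨d, hd, hdist⟩ := exists_dist hirr C
  obtain ⟨q, hq⟩ := exists_nat_gt ((C : ℝ) / d)
  have hq' : (C : ℝ) / (q + 1) < d := by
    rw [div_lt_iff₀ (by positivity)]
    rw [div_lt_iff₀ hd] at hq
    nlinarith
  refine ⟨Wq q, hp h₁ h₂, ?_, hp_measurable _ _, hp_periodic _ _, ?_, ?_, ?_⟩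
  · refine ⟨(Wq_continuous q).measurable, Wq_periodic q, Wq_nonneg q,
      (Wq_continuous q).intervalIntegrable _ _, ?_⟩
    have := integral_cos_pow_W q 0
    simp only [pow_zero, one_mul, add_zero] at this
    rw [this]
    have := J_even_pos q
    linarith
  · intro θ
    unfold hp
    split_ifs
    · exact ⟨a1, a2⟩
    · exact ⟨a3, a4⟩
  · exact iInf₂_le 4 (quadrature_W q)
  · have hle : ((C + 1 : ℕ) : ℕ∞) ≤ minNodes (fun θ => hp h₁ h₂ θ * Wq q θ) 2 := by
      refine le_iInf₂ fun N hN => ?_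
      obtain ⟨hN1, z, hz⟩ := quadrature_hW hh1 hh2 q N hN
      by_contra hcon
      push Not at hcon
      have hNC : N ≤ C := by
        have : N < C + 1 := by exact_mod_cast hcon
        omega
      have h5 := hdist N hN1 hNC z
      have h6 : (N : ℝ) / (q + 1) ≤ (C : ℝ) / (q + 1) := by
        have : (N : ℝ) ≤ C := by exact_mod_cast hNC
        gcongr
      linarith
    refine lt_of_lt_of_le ?_ hle
    exact_mod_cast Nat.lt_succ_self C

end Pool.Agent.Results.MP_205740_an.UnboundedRatio
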